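import Mathlib

set_option autoImplicit false

/-!
# Fixed-point-free elements of prime power order in transitive groups

If a finite group `G` acts transitively on a set `Ω` whose number of elements `m` satisfies
`p ^ a ∣ m` and `m < p ^ (a + 1)` for a prime `p` and some `a ≥ 1`, then `G` contains an element of
`p`-power order without fixed points on `Ω`.
-/

namespace Pool.Agent.TH669.PT

open MulAction

variable {p : ℕ} [Fact p.Prime]

/-- a proper subgroup of a finite `p`-group is contained in a proper normal subgroup -/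
theorem exists_normal_proper {P : Type*} [Group P] [Finite P] (hP : IsPGroup p P)
    (K : Subgroup P) (hK : K ≠ ⊤) : ∃ M : Subgroup P, K ≤ M ∧ M ≠ ⊤ ∧ M.Normal := by
  obtain ⟨M, hM, hKM⟩ := (eq_top_or_exists_le_coatom K).resolve_left hK
  have := hP.isNilpotent
  exact ⟨M, hKM, hM.1, Subgroup.NormalizerCondition.normal_of_coatom M
    Group.normalizerCondition_of_isNilpotent hM⟩

/-- a `p`-group with fewer than `p` orbits, all of them nontrivial, has an element without fixed
points -/
theorem exists_of_pgroup {P Ω : Type*} [Group P] [Finite P] [MulAction P Ω] [Finite Ω]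
    (hP : IsPGroup p P) {t : ℕ} (ht : 2 ≤ t) (horb : ∀ ω : Ω, t ≤ Nat.card (orbit P ω))
    (hcard : Nat.card Ω < p * t) : ∃ g : P, ∀ ω : Ω, g • ω ≠ ω := by
  classical
  by_contra hcon
  push Not at hcon
  have : Fintype (orbitRel.Quotient P Ω) := Fintype.ofFinite _
  have : Fintype P := Fintype.ofFinite _
  have hprime : p.Prime := Fact.out
  -- the number of orbits
  have hN : Fintype.card (orbitRel.Quotient P Ω) * t ≤ Nat.card Ω := by
    have e := Nat.card_congr (selfEquivSigmaOrbits P Ω)
    rw [Nat.card_sigma] at e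
    rw [e, ← smul_eq_mul, ← Finset.card_univ, ← Finset.sum_const]
    exact Finset.sum_le_sum fun o _ => horb _
  have hNp : Fintype.card (orbitRel.Quotient P Ω) < p := by
    have h1 : Fintype.card (orbitRel.Quotient P Ω) * t < p * t := lt_of_le_of_lt hN hcard
    exact lt_of_mul_lt_mul_right h1 (Nat.zero_le t)
  have hM : ∀ o : orbitRel.Quotient P Ω, ∃ M : Subgroup P, stabilizer P o.out ≤ M ∧ M ≠ ⊤ ∧
      M.Normal := by
    intro o
    refine exists_normal_proper hP _ fun h => ?_
    have h1 : Nat.card (orbit P o.out) * Nat.card (stabilizer P o.out) = Nat.card P := by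
      rw [← Nat.card_prod]
      exact Nat.card_congr (orbitProdStabilizerEquivGroup P o.out)
    rw [h] at h1
    have h2 : Nat.card (⊤ : Subgroup P) = Nat.card P := Subgroup.card_top
    rw [h2] at h1
    have h3 : 0 < Nat.card P := Nat.card_pos
    have h4 := horb o.out
    nlinarith
  choose M hM1 hM2 hM3 using hM
  have hindex : ∀ o, p * Nat.card (M o) ≤ Nat.card P := by
    intro o
    obtain ⟨n, hn⟩ := IsPGroup.iff_card.1 hP
    have h1 := (M o).card_mul_index
    have h2 : (M o).index ∣ p ^ n := by
      rw [← hn, ← h1]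
      exact Dvd.intro_left _ rfl
    obtain ⟨i, hi, hi2⟩ := (Nat.dvd_prime_pow hprime).1 h2
    have h3 : (M o).index ≠ 1 := fun h => hM2 o (Subgroup.index_eq_one.1 h)
    have h4 : i ≠ 0 := by
      rintro rfl
      exact h3 (by rw [hi2, pow_zero])
    have h5 : p ≤ (M o).index := by
      rw [hi2]
      exact Nat.le_self_pow h4 p
    rw [← h1, mul_comm]
    exact Nat.mul_le_mul_left _ h5
  have hcover : (Finset.univ : Finset P) ⊆
      Finset.univ.biUnion (fun o : orbitRel.Quotient P Ω =>
        (Finset.univ.filter (fun g : P => g ∈ M o))) := by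
    intro g _
    obtain ⟨ω, hω⟩ := hcon g
    rw [Finset.mem_biUnion]
    refine ⟨(Quotient.mk'' ω : orbitRel.Quotient P Ω), Finset.mem_univ _, ?_⟩
    rw [Finset.mem_filter]
    refine ⟨Finset.mem_univ _, ?_⟩
    set o : orbitRel.Quotient P Ω := Quotient.mk'' ω with ho
    have hrel : (orbitRel P Ω) o.out ω := Quotient.exact' (by rw [Quotient.out_eq'])
    rw [orbitRel_apply] at hrel
    obtain ⟨h, hh⟩ := hrel
    have h1 : h * g * h⁻¹ ∈ stabilizer P o.out := by
      rw [mem_stabilizer_iff, ← hh]
      change (h * g * h⁻¹) • h • ω = h • ω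
      rw [← mul_smul, mul_assoc, mul_assoc, inv_mul_cancel, mul_one, mul_smul, hω]
    have h2 := hM1 o h1
    have h3 := (hM3 o).conj_mem _ h2 h⁻¹
    have h4 : h⁻¹ * (h * g * h⁻¹) * h⁻¹⁻¹ = g := by group
    rwa [h4] at h3
  have h1 : Nat.card P ≤ ∑ o : orbitRel.Quotient P Ω, Nat.card (M o) := by
    rw [Nat.card_eq_fintype_card, ← Finset.card_univ]
    refine (Finset.card_le_card hcover).trans (Finset.card_biUnion_le.trans ?_)
    refine Finset.sum_le_sum fun o _ => le_of_eq ?_
    rw [Nat.card_eq_fintype_card, Fintype.card_subtype]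
  have h2 : p * Nat.card P ≤ Fintype.card (orbitRel.Quotient P Ω) * Nat.card P := by
    calc p * Nat.card P ≤ p * ∑ o : orbitRel.Quotient P Ω, Nat.card (M o) :=
          Nat.mul_le_mul_left _ h1
      _ = ∑ o : orbitRel.Quotient P Ω, p * Nat.card (M o) := Finset.mul_sum _ _ _
      _ ≤ ∑ _o : orbitRel.Quotient P Ω, Nat.card P := Finset.sum_le_sum fun o _ => hindex o
      _ = _ := by rw [Finset.sum_const, Finset.card_univ, smul_eq_mul]
  have h3 : p ≤ Fintype.card (orbitRel.Quotient P Ω) :=
    Nat.le_of_mul_le_mul_right h2 Nat.card_pos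
  omega

/-- a transitive group of degree `m` with `p ^ a ∣ m < p ^ (a + 1)`, `a ≥ 1`, contains an element of
`p`-power order without fixed points -/
theorem exists_derangement {G Ω : Type*} [Group G] [Finite G] [MulAction G Ω] [Finite Ω]
    [Nonempty Ω] [IsPretransitive G Ω] {a : ℕ} (ha : 1 ≤ a) (h1 : p ^ a ∣ Nat.card Ω)
    (h2 : Nat.card Ω < p ^ (a + 1)) :
    ∃ g : G, (∃ b, orderOf g = p ^ b) ∧ ∀ ω : Ω, g • ω ≠ ω := by
  have hprime : p.Prime := Fact.out
  obtain ⟨P⟩ : Nonempty (Sylow p G) := inferInstance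
  have hP : IsPGroup p P := P.isPGroup'
  have hcardP : Nat.card P = p ^ (Nat.card G).factorization p := P.card_eq_multiplicity
  have horb : ∀ ω : Ω, p ^ a ≤ Nat.card (orbit P ω) := by
    intro ω
    have e1 : Nat.card (orbit P ω) * Nat.card (stabilizer P ω) = Nat.card P := by
      rw [← Nat.card_prod]
      exact Nat.card_congr (orbitProdStabilizerEquivGroup P ω)
    have e2 : Nat.card Ω * Nat.card (stabilizer G ω) = Nat.card G := by
      have h := Nat.card_congr (orbitProdStabilizerEquivGroup G ω)
      rw [Nat.card_prod] at h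
      rw [← h]
      congr 1
      rw [orbit_eq_univ G ω]
      exact (Nat.card_congr (Equiv.Set.univ Ω)).symm
    have e3 : Nat.card (stabilizer P ω) ∣ Nat.card (stabilizer G ω) := by
      refine Subgroup.card_dvd_of_injective
        (MonoidHom.mk' (fun x : stabilizer P ω =>
          (⟨(x : P), x.2⟩ : stabilizer G ω)) ?_) ?_
      · intro x y
        rfl
      · intro x y hxy
        have := congrArg (fun z : stabilizer G ω => (z : G)) hxy
        exact Subtype.ext (Subtype.ext this)
    obtain ⟨c, hc⟩ := hP.to_subgroup (stabilizer P ω) |> IsPGroup.iff_card.1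
    have hG0 : Nat.card G ≠ 0 := Nat.card_pos.ne'
    have hO0 : Nat.card Ω ≠ 0 := Nat.card_pos.ne'
    have hS0 : Nat.card (stabilizer G ω) ≠ 0 := Nat.card_pos.ne'
    have f1 : (Nat.card G).factorization p =
        (Nat.card Ω).factorization p + (Nat.card (stabilizer G ω)).factorization p := by
      rw [← e2, Nat.factorization_mul hO0 hS0]
      rfl
    have f2 : a ≤ (Nat.card Ω).factorization p := (hprime.pow_dvd_iff_le_factorization hO0).1 h1
    have f3 : c ≤ (Nat.card (stabilizer G ω)).factorization p := by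
      rw [← hprime.pow_dvd_iff_le_factorization hS0, ← hc]
      exact e3
    rw [hc, hcardP] at e1
    have f4 : p ^ (a + c) ≤ Nat.card (orbit P ω) * p ^ c := by
      rw [e1]
      exact Nat.pow_le_pow_right hprime.pos (by omega)
    rw [pow_add] at f4
    exact Nat.le_of_mul_le_mul_right f4 (Nat.pow_pos hprime.pos)
  have ht : 2 ≤ p ^ a := le_trans hprime.two_le (Nat.le_self_pow (by omega) p)
  obtain ⟨g, hg⟩ := exists_of_pgroup (p := p) hP ht horb (by rwa [pow_succ, mul_comm] at h2)
  refine ⟨(g : G), ?_, fun ω => hg ω⟩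
  obtain ⟨b, hb⟩ := IsPGroup.iff_orderOf.1 hP g
  exact ⟨b, by rw [Subgroup.orderOf_coe]; exact hb⟩

end Pool.Agent.TH669.PT
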