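import Pool.Agent.W854.FA.Final
import Pool.Agent.TH669.PT.Derange

set_option autoImplicit false

/-!
# Point-transitive symmetric designs: fixed-point-free automorphisms of prime power order
-/

namespace Pool.Agent.TH669.PT

open Finset Filter Topology Pool.Agent.W854.FA

/-- a fixed-point-free automorphism of prime power order of a nontrivial symmetric design -/
theorem hasE_of {v k lam : ℕ} {B : Fin v → Finset (Fin v)} (hk : 2 ≤ k) (hkv : k + 2 ≤ v)
    (hsize : ∀ i, (B i).card = k)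
    (hpair : ∀ x y : Fin v, x ≠ y →
      (Finset.univ.filter (fun i => x ∈ B i ∧ y ∈ B i)).card = lam)
    {σ : Equiv.Perm (Fin v)} (haut : ∀ i, ∃ j, (B i).image σ = B j) {q b : ℕ} (hq : q.Prime)
    (hord : orderOf σ = q ^ b) (hfree : ∀ x, σ x ≠ x) : HasE 0 v := by
  have hF : Fact q.Prime := ⟨hq⟩
  have hpow : σ ^ (q ^ b) = 1 := by rw [← hord]; exact pow_orderOf_eq_one σ
  have h0 : (univ.filter (fun x : Fin v => σ x = x)) = ∅ := by
    rw [Finset.filter_eq_empty_iff]
    intro x _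
    exact hfree x
  have h1 := Equiv.Perm.card_compl_support_modEq (p := q) (n := b) hpow
  have h2 : (Equiv.Perm.support σ)ᶜ = univ.filter (fun x : Fin v => σ x = x) := by
    ext x
    simp
  rw [h2, h0, Finset.card_empty, Fintype.card_fin] at h1
  have h3 : q ∣ v := (Nat.modEq_zero_iff_dvd.1 h1.symm)
  exact ⟨k, lam, B, σ, q, b, hk, hkv, ⟨by omega, hsize, hpair, haut, hq, Or.inl h3, hpow,
    by rw [h0]; simp⟩⟩

/-- transitive group, invariant partition into `m` classes, `r ^ a ∣ m < r ^ (a + 1)` -/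
theorem exists_of_partition {v : ℕ} (hv : 0 < v) (H : Subgroup (Equiv.Perm (Fin v)))
    (htr : ∀ x y : Fin v, ∃ h ∈ H, h x = y) {m r a : ℕ} (c : Fin v → Fin m)
    (hc : Function.Surjective c) (hinv : ∀ h ∈ H, ∀ x y, c x = c y → c (h x) = c (h y))
    (hr : r.Prime) (ha : 1 ≤ a) (h1 : r ^ a ∣ m) (h2 : m < r ^ (a + 1)) :
    ∃ h ∈ H, (∃ b, orderOf h = r ^ b) ∧ ∀ x, h x ≠ x := by
  have hF : Fact r.Prime := ⟨hr⟩
  obtain ⟨s, hs⟩ := hc.hasRightInverse
  let act : MulAction H (Fin m) :=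
    { smul := fun h i => c ((h : Equiv.Perm (Fin v)) (s i))
      one_smul := fun i => hs i
      mul_smul := fun g h i => by
        change c (((g * h : H) : Equiv.Perm (Fin v)) (s i)) =
          c ((g : Equiv.Perm (Fin v)) (s (c ((h : Equiv.Perm (Fin v)) (s i)))))
        rw [Subgroup.coe_mul, Equiv.Perm.mul_apply]
        exact hinv g g.2 _ _ (hs _).symm }
  have hact : ∀ (h : H) (i : Fin m), h • i = c ((h : Equiv.Perm (Fin v)) (s i)) := fun _ _ => rfl
  have hne : Nonempty (Fin m) := ⟨c ⟨0, hv⟩⟩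
  have hpre : MulAction.IsPretransitive H (Fin m) := by
    refine ⟨fun i j => ?_⟩
    obtain ⟨h, hh, hij⟩ := htr (s i) (s j)
    exact ⟨⟨h, hh⟩, by rw [hact, hij, hs]⟩
  obtain ⟨g, ⟨b, hb⟩, hg⟩ := exists_derangement (p := r) (G := H) (Ω := Fin m) ha
    (by rwa [Nat.card_fin]) (by rwa [Nat.card_fin])
  refine ⟨(g : Equiv.Perm (Fin v)), g.2, ⟨b, by rw [Subgroup.orderOf_coe]; exact hb⟩,
    fun x hx => ?_⟩
  refine hg (c x) ?_
  rw [hact, hinv g g.2 (s (c x)) x (hs _), hx]

/-- transitive group, a prime divisor of the degree not dividing the order of a point stabilizer -/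
theorem exists_of_stabilizer {v : ℕ} (H : Subgroup (Equiv.Perm (Fin v)))
    (htr : ∀ x y : Fin v, ∃ h ∈ H, h x = y) {q : ℕ} (hq : q.Prime) (hqv : q ∣ v) (x : Fin v)
    (hx : ¬ q ∣ Nat.card (MulAction.stabilizer H x)) :
    ∃ h ∈ H, (∃ b, orderOf h = q ^ b) ∧ ∀ y, h y ≠ y := by
  have hF : Fact q.Prime := ⟨hq⟩
  have hact : ∀ (h : H) (i : Fin v), h • i = (h : Equiv.Perm (Fin v)) i := fun _ _ => rfl
  have hpre : MulAction.IsPretransitive H (Fin v) := by
    refine ⟨fun i j => ?_⟩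
    obtain ⟨h, hh, hij⟩ := htr i j
    exact ⟨⟨h, hh⟩, hij⟩
  have hcard : q ∣ Nat.card H := by
    have h := Nat.card_congr (MulAction.orbitProdStabilizerEquivGroup H x)
    rw [Nat.card_prod, MulAction.orbit_eq_univ H x, Nat.card_congr (Equiv.Set.univ (Fin v)),
      Nat.card_fin] at h
    rw [← h]
    exact Dvd.dvd.mul_right hqv _
  obtain ⟨g, hg⟩ := exists_prime_orderOf_dvd_card' q hcard
  refine ⟨(g : Equiv.Perm (Fin v)), g.2, ⟨1, by rw [Subgroup.orderOf_coe, hg, pow_one]⟩,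
    fun y hy => hx ?_⟩
  obtain ⟨h, hh⟩ := MulAction.exists_smul_eq H y x
  have hmem : h * g * h⁻¹ ∈ MulAction.stabilizer H x := by
    rw [MulAction.mem_stabilizer_iff, ← hh, mul_smul, inv_smul_smul, mul_smul]
    congr 1
  have ho : orderOf (⟨h * g * h⁻¹, hmem⟩ : MulAction.stabilizer H x) = q := by
    rw [← Subgroup.orderOf_coe]
    change orderOf (h * g * h⁻¹) = q
    rw [← hg]
    exact orderOf_injective (MulAut.conj h).toMonoidHom (MulAut.conj h).injective g
  rw [← ho]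
  exact orderOf_dvd_natCard _

end Pool.Agent.TH669.PT
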